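import Mathlib

/-!
# Project GE (MP_576a07_an): generic non-equidistribution under matrix endomorphisms

Definitions.
-/

set_option autoImplicit false
open MeasureTheory Filter Topology

namespace Pool.Agent.R284.GE

/-- the torus -/
abbrev Tor (d : ℕ) := Fin d → UnitAddCircle

/-- the endomorphism of the torus given by an integer matrix -/
def TM {d e : ℕ} (M : Matrix (Fin d) (Fin e) ℤ) (x : Tor e) : Tor d := fun i => ∑ j, M i j • x j

/-- real matrix of an integer matrix -/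
def rm {d e : ℕ} (M : Matrix (Fin d) (Fin e) ℤ) : Matrix (Fin d) (Fin e) ℝ := M.map (Int.cast : ℤ → ℝ)

/-- real action -/
def act {d e : ℕ} (M : Matrix (Fin d) (Fin e) ℤ) (v : Fin e → ℝ) : Fin d → ℝ := (rm M).mulVec v

/-- projection `ℝ^d → 𝕋^d` -/
def pr {d : ℕ} (v : Fin d → ℝ) : Tor d := fun i => (v i : UnitAddCircle)

/-- integer vector as a real vector -/
def iv {d : ℕ} (z : Fin d → ℤ) : Fin d → ℝ := fun i => (z i : ℝ)

theorem TM_pr {d e : ℕ} (M : Matrix (Fin d) (Fin e) ℤ) (v : Fin e → ℝ) : TM M (pr v) = pr (act M v) := by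
  funext i
  simp only [TM, pr, act, rm, Matrix.mulVec, dotProduct, Matrix.map_apply]
  rw [show ((∑ x, (M i x : ℝ) * v x : ℝ) : UnitAddCircle) = ∑ x, (((M i x : ℝ) * v x : ℝ) : UnitAddCircle) from
    map_sum (QuotientAddGroup.mk' (AddSubgroup.zmultiples (1 : ℝ))) _ _]
  refine Finset.sum_congr rfl fun j _ => ?_
  rw [← zsmul_eq_mul]
  rfl

theorem TM_add {d e : ℕ} (M : Matrix (Fin d) (Fin e) ℤ) (x y : Tor e) : TM M (x + y) = TM M x + TM M y := by
  funext i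
  simp [TM, smul_add, Finset.sum_add_distrib]

theorem TM_mul {d e f : ℕ} (M : Matrix (Fin d) (Fin e) ℤ) (N : Matrix (Fin e) (Fin f) ℤ) (x : Tor f) :
    TM (M * N) x = TM M (TM N x) := by
  funext i
  simp only [TM, Matrix.mul_apply, Finset.sum_smul, Finset.smul_sum]
  rw [Finset.sum_comm]
  refine Finset.sum_congr rfl fun j _ => Finset.sum_congr rfl fun k _ => ?_
  rw [mul_smul]

theorem TM_one {d : ℕ} (x : Tor d) : TM (1 : Matrix (Fin d) (Fin d) ℤ) x = x := by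
  funext i
  simp [TM, Matrix.one_apply]

theorem continuous_TM {d e : ℕ} (M : Matrix (Fin d) (Fin e) ℤ) : Continuous (TM M) := by
  refine continuous_pi fun i => ?_
  refine continuous_finsetSum _ fun j _ => ?_
  exact (continuous_zsmul (M i j)).comp (continuous_apply j)

theorem measurable_TM {d e : ℕ} (M : Matrix (Fin d) (Fin e) ℤ) : Measurable (TM M) :=
  (continuous_TM M).measurable

theorem act_mul {d e f : ℕ} (M : Matrix (Fin d) (Fin e) ℤ) (N : Matrix (Fin e) (Fin f) ℤ) (v : Fin f → ℝ) :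
    act (M * N) v = act M (act N v) := by
  have : rm (M * N) = rm M * rm N := by
    ext i j; simp [rm, Matrix.mul_apply]
  rw [act, this, act, act, Matrix.mulVec_mulVec]

theorem pr_surj {d : ℕ} (x : Tor d) : ∃ v : Fin d → ℝ, (∀ i, 0 ≤ v i ∧ v i < 1) ∧ pr v = x := by
  choose v hv using fun i => (AddCircle.coe_image_Ico_eq (1 : ℝ) 0 ▸ Set.mem_univ (x i) :
    x i ∈ ((↑) : ℝ → UnitAddCircle) '' Set.Ico 0 (0 + 1))
  exact ⟨v, fun i => ⟨(hv i).1.1, by simpa using (hv i).1.2⟩, funext fun i => (hv i).2⟩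

theorem pr_iv {d : ℕ} (v : Fin d → ℝ) (z : Fin d → ℤ) : pr (v + iv z) = pr v := by
  funext i
  simp only [pr, iv, Pi.add_apply]
  rw [AddCircle.coe_add]
  have : (((z i : ℤ) : ℝ) : UnitAddCircle) = 0 := by
    rw [AddCircle.coe_eq_zero_iff]; exact ⟨z i, by simp⟩
  rw [this, add_zero]

theorem pr_add {d : ℕ} (v w : Fin d → ℝ) : pr (v + w) = pr v + pr w := rfl

theorem dist_pr_le {d : ℕ} (v w : Fin d → ℝ) : dist (pr v) (pr w) ≤ ‖v - w‖ := by
  rw [dist_pi_le_iff (norm_nonneg _)]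
  intro i
  rw [dist_eq_norm]
  have h1 : pr v i - pr w i = ((v i - w i : ℝ) : UnitAddCircle) := rfl
  rw [h1]
  refine le_trans ?_ (norm_le_pi_norm (v - w) i)
  rw [Pi.sub_apply]
  exact QuotientAddGroup.norm_mk_le_norm

/-- no root of unity is an eigenvalue -/
def NRU {d : ℕ} (H : Matrix (Fin d) (Fin d) ℤ) : Prop := ∀ n : ℕ, 1 ≤ n → (H ^ n - 1).det ≠ 0

/-- `h` is coprime to all `X^n - 1` -/
def PNRU (h : Polynomial ℤ) : Prop := ∀ n : ℕ, 1 ≤ n →
  IsCoprime (h.map (Int.castRingHom ℚ)) ((Polynomial.X : Polynomial ℚ) ^ n - 1)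

/-- the part of the torus on which the unipotent part of `A^k` is trivial -/
def SS {d : ℕ} (A : Matrix (Fin d) (Fin d) ℤ) (k : ℕ) (h : Polynomial ℤ) : Set (Tor d) :=
  {x | ∃ v : Fin d → ℝ, act ((A ^ k - 1) * Polynomial.aeval A h) v = 0 ∧ x = pr v}

/-- small ball around 0 -/
def Ba (d : ℕ) (η : ℝ) : Set (Tor d) := {x | ∃ v : Fin d → ℝ, ‖v‖ ≤ η ∧ x = pr v}

/-- finite invariant measure of mass at most 1 -/
def Inv {d : ℕ} (A : Matrix (Fin d) (Fin d) ℤ) (ρ : Measure (Tor d)) : Prop :=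
  ρ Set.univ ≤ 1 ∧ ρ.map (TM A) = ρ

/-- weak closeness -/
def Near {d : ℕ} (ε : ℝ) (ρ ν : Measure (Tor d)) : Prop :=
  ∀ (f : C(Tor d, ℝ)) (w : ℝ), (∀ x y, dist x y ≤ ε → |f x - f y| ≤ w) →
    |∫ x, f x ∂ρ - ∫ x, f x ∂ν| ≤ w + 2 * ε * ‖f‖

/-- splitting of `ℝ^d` in stable, central, unstable parts for `H`. -/
structure Split {d : ℕ} (H : Matrix (Fin d) (Fin d) ℤ) (Ps Pc Pu : Matrix (Fin d) (Fin d) ℝ) : Prop where
  cs : rm H * Ps = Ps * rm H
  cc : rm H * Pc = Pc * rm H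
  cu : rm H * Pu = Pu * rm H
  sum : Ps + Pc + Pu = 1
  is : Ps * Ps = Ps
  ic : Pc * Pc = Pc
  iu : Pu * Pu = Pu
  bs : ∃ C θ : ℝ, 0 < θ ∧ θ < 1 ∧ ∀ (j : ℕ) (v : Fin d → ℝ), ‖((rm H) ^ j * Ps).mulVec v‖ ≤ C * θ ^ j * ‖v‖
  bu : ∃ C θ : ℝ, 0 < θ ∧ θ < 1 ∧ ∀ (j : ℕ) (v : Fin d → ℝ), ‖(((rm H)⁻¹) ^ j * Pu).mulVec v‖ ≤ C * θ ^ j * ‖v‖
  bc : ∀ τ > 0, ∃ C : ℝ, ∀ (j : ℕ) (v : Fin d → ℝ),
    ‖((rm H) ^ j * Pc).mulVec v‖ ≤ C * Real.exp (τ * j) * ‖v‖ ∧
    ‖(((rm H)⁻¹) ^ j * Pc).mulVec v‖ ≤ C * Real.exp (τ * j) * ‖v‖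

/-- the space of invariant probability measures with the weak-* topology -/
abbrev PA {d : ℕ} (A : Matrix (Fin d) (Fin d) ℤ) :=
  {μ : ProbabilityMeasure (Tor d) // (μ : Measure (Tor d)).map (TM A) = (μ : Measure (Tor d))}

instance instProbCircle : IsProbabilityMeasure (volume : Measure UnitAddCircle) :=
  ⟨UnitAddCircle.measure_univ⟩

/-- Haar (Lebesgue) probability measure -/
noncomputable def Leb (d : ℕ) : ProbabilityMeasure (Tor d) := ⟨volume, inferInstance⟩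

/-- image of a measure -/
noncomputable def push {d : ℕ} (B : Matrix (Fin d) (Fin d) ℤ) (μ : ProbabilityMeasure (Tor d)) :
    ProbabilityMeasure (Tor d) := μ.map (measurable_TM B).aemeasurable

/-- the set of the problem -/
def GG {d : ℕ} (A B : Matrix (Fin d) (Fin d) ℤ) : Set (PA A) :=
  {μ | (∀ x, (μ.1 : Measure (Tor d)) {x} = 0) ∧
    ¬ Tendsto (fun n : ℕ => push (B ^ n) μ.1) atTop (𝓝 (Leb d))}

end Pool.Agent.R284.GE
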