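import Pool.Agent.R284.GE.Defs

/-! # Project GE: statements of the pieces -/

set_option autoImplicit false
open MeasureTheory Filter Topology Polynomial

namespace Pool.Agent.R284.GE

/-- POLY -/
def S_POLY : Prop := ∀ (d : ℕ) (A : Matrix (Fin d) (Fin d) ℤ), ∃ (k : ℕ) (h : ℤ[X]),
  1 ≤ k ∧ PNRU h ∧ (A ^ k - 1) ^ d * aeval A h = 0

/-- EXC: excursions of unipotent orbits -/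
def S_EXC : Prop := ∀ (d : ℕ) (U : Matrix (Fin d) (Fin d) ℤ) (ω : ℝ), 0 < ω → ∃ η : ℝ, 0 < η ∧ η < 1 / 8 ∧
  ∀ u : Fin d → ℝ, ‖u‖ ≤ η → act ((U - 1) ^ d) u = 0 → act (U - 1) u ≠ 0 →
  ∃ T : ℕ, 1 ≤ T ∧ (Nat.card {i : Fin T | pr (act (U ^ (i : ℕ)) u) ∈ Ba d η} : ℝ) ≤ ω * T

/-- INTG: maximal inequality -/
def S_INTG : Prop := ∀ (X : Type) [MeasurableSpace X] (ρ : Measure X) (T : X → X) (Ω : Set X) (ω : ℝ),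
  ρ Set.univ ≤ 1 → Measurable T → ρ.map T = ρ → MeasurableSet Ω → 0 ≤ ω →
  (∀ x ∈ Ω, ∃ n : ℕ, 1 ≤ n ∧ (Nat.card {i : Fin n | T^[(i : ℕ)] x ∈ Ω} : ℝ) ≤ ω * n) →
  (ρ Ω).toReal ≤ ω

/-- DIV -/
def S_DIV : Prop := ∀ (d : ℕ) (A : Matrix (Fin d) (Fin d) ℤ) (k : ℕ) (h : ℤ[X]), 1 ≤ k →
  (A ^ k - 1) ^ d * aeval A h = 0 → ∀ ω > 0, ∃ η > 0, ∀ ρ : Measure (Tor d), Inv A ρ →
  (ρ (Ba d η \ SS A k h)).toReal ≤ ω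

/-- LATT: coordinates on the kernel of `f(A)` -/
def S_LATT : Prop := ∀ (d : ℕ) (A : Matrix (Fin d) (Fin d) ℤ) (f : ℤ[X]), ∃ (s : ℕ)
  (J : Matrix (Fin d) (Fin s) ℤ) (A' : Matrix (Fin s) (Fin s) ℤ), A * J = J * A' ∧ aeval A' f = 0 ∧
  (A.det ≠ 0 → A'.det ≠ 0) ∧ ∀ v : Fin d → ℝ, act (aeval A f) v = 0 → ∃ t : Fin s → ℝ, act J t = v

/-- complexification of a real matrix acting on complex vectors -/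
def cm {d : ℕ} (X : Matrix (Fin d) (Fin d) ℝ) : Matrix (Fin d) (Fin d) ℂ := X.map (Complex.ofReal : ℝ → ℂ)

/-- GELF: spectral radius bound -/
def S_GELF : Prop := ∀ (d : ℕ) (X : Matrix (Fin d) (Fin d) ℝ) (r : ℝ), 0 < r →
  (∀ (z : ℂ) (w : Fin d → ℂ), w ≠ 0 → (cm X).mulVec w = z • w → ‖z‖ < r) →
  ∃ C : ℝ, ∀ (j : ℕ) (v : Fin d → ℝ), ‖(X ^ j).mulVec v‖ ≤ C * r ^ j * ‖v‖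

/-- PROJ: spectral projections -/
def S_PROJ : Prop := ∀ (d : ℕ) (X : Matrix (Fin d) (Fin d) ℝ), ∃ Ps Pc Pu : Matrix (Fin d) (Fin d) ℝ,
  X * Ps = Ps * X ∧ X * Pc = Pc * X ∧ X * Pu = Pu * X ∧ Ps + Pc + Pu = 1 ∧
  Ps * Ps = Ps ∧ Pc * Pc = Pc ∧ Pu * Pu = Pu ∧
  ∀ (z : ℂ) (w : Fin d → ℂ), w ≠ 0 → (cm X).mulVec w = z • w →
    ((cm Ps).mulVec w = w → ‖z‖ < 1) ∧ ((cm Pc).mulVec w = w → ‖z‖ = 1) ∧ ((cm Pu).mulVec w = w → 1 < ‖z‖)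

/-- SPLIT -/
def S_SPLIT : Prop := ∀ (d : ℕ) (H : Matrix (Fin d) (Fin d) ℤ), H.det ≠ 0 → ∃ Ps Pc Pu, Split H Ps Pc Pu

/-- CINV -/
def S_CINV : Prop := ∀ (d : ℕ) (H : Matrix (Fin d) (Fin d) ℤ) (Ps Pc Pu : Matrix (Fin d) (Fin d) ℝ),
  H.det ≠ 0 → NRU H → Split H Ps Pc Pu → ∀ τ > 0, ∀ M : ℕ, 1 ≤ M → ∃ C : ℝ, 1 ≤ C ∧
    ∀ p0 : ℕ, ∃ p : ℕ, p0 ≤ p ∧ 1 ≤ p ∧ p ≡ 1 [MOD M] ∧ ∀ u : Fin d → ℝ,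
      ‖Pc.mulVec u‖ ≤ C * Real.exp (τ * p) * ‖Pc.mulVec (act (H ^ p - 1) u)‖

/-- RES -/
def S_RES : Prop := ∀ (d : ℕ) (H : Matrix (Fin d) (Fin d) ℤ) (Ps Pc Pu : Matrix (Fin d) (Fin d) ℝ),
  H.det ≠ 0 → NRU H → Split H Ps Pc Pu → ∃ θ : ℝ, 0 < θ ∧ θ < 1 ∧ ∀ τ > 0, ∀ M : ℕ, 1 ≤ M → ∃ C : ℝ, 1 ≤ C ∧
    ∀ p0 : ℕ, ∃ p : ℕ, p0 ≤ p ∧ 1 ≤ p ∧ p ≡ 1 [MOD M] ∧ ∀ b u : Fin d → ℝ, act (H ^ p - 1) u = b →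
      ∀ j ≤ p, ‖act (H ^ j) u‖ ≤ C * ((θ ^ j + θ ^ (p - j)) * ‖b‖ + Real.exp (τ * p) * ‖Pc.mulVec b‖)

/-- P1 -/
def S_P1 : Prop := ∀ m : ℤ[X], m.Monic → Irreducible m →
  (∀ z : ℂ, aeval z m = 0 → ∀ n : ℕ, 1 ≤ n → z ^ n ≠ 1) →
  ∃ P : ℤ[X], ∀ z : ℂ, aeval z m = 0 → ‖z‖ = 1 → aeval z P ≠ 0 ∧ ‖aeval z P‖ < 1 / 2

/-- P2 -/
def S_P2 : Prop := ∀ m : ℤ[X], m.Monic →
  (∀ z : ℂ, aeval z m = 0 → ∀ n : ℕ, 1 ≤ n → z ^ n ≠ 1) →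
  ∃ P : ℤ[X], ∀ z : ℂ, aeval z m = 0 → ‖z‖ = 1 → aeval z P ≠ 0 ∧ ‖aeval z P‖ < 1 / 2

/-- PP: an integer matrix contracting the central part -/
def S_PP : Prop := ∀ (d : ℕ) (H : Matrix (Fin d) (Fin d) ℤ) (Ps Pc Pu : Matrix (Fin d) (Fin d) ℝ),
  H.det ≠ 0 → NRU H → Split H Ps Pc Pu → ∃ (G : Matrix (Fin d) (Fin d) ℤ) (R : Matrix (Fin d) (Fin d) ℝ),
    rm G * Pc = Pc * rm G ∧ R * Pc = Pc * R ∧ rm G * R * Pc = Pc ∧ R * rm G * Pc = Pc ∧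
    ∃ C θ : ℝ, 0 < θ ∧ θ < 1 ∧ ∀ (j : ℕ) (v : Fin d → ℝ), ‖((rm G) ^ j * Pc).mulVec v‖ ≤ C * θ ^ j * ‖v‖

/-- EFF: effective density of the central projection of the lattice -/
def S_EFF : Prop := ∀ (d : ℕ) (H : Matrix (Fin d) (Fin d) ℤ) (Ps Pc Pu : Matrix (Fin d) (Fin d) ℝ),
  1 ≤ d → H.det ≠ 0 → NRU H → Split H Ps Pc Pu → ∃ (C K : ℝ), 1 ≤ C ∧ 0 ≤ K ∧ ∀ δ : ℝ, 0 < δ → δ < 1 →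
    (∀ c : Fin d → ℝ, ‖c‖ ≤ 1 → ∃ z : Fin d → ℤ, ‖Pc.mulVec (c + iv z)‖ ≤ δ ∧ ‖c + iv z‖ ≤ C * δ ^ (-K)) ∧
    ∃ z : Fin d → ℤ, z ≠ 0 ∧ ‖Pc.mulVec (iv z)‖ ≤ δ ∧ ‖iv z‖ ≤ C * δ ^ (-K)

/-- ARITH -/
def S_ARITH : Prop := ∀ (d : ℕ) (H : Matrix (Fin d) (Fin d) ℤ) (D : ℕ), NRU H → 1 ≤ D →
  ∃ M c : ℕ, 1 ≤ M ∧ 1 ≤ c ∧ ∀ p : ℕ, 1 ≤ p → p ≡ 1 [MOD M] → ∃ m : ℕ, 1 ≤ m ∧ Nat.Coprime m D ∧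
    ∀ y : Tor d, TM (H ^ p) y = y → m • (c • y) = 0

/-- CLOSE -/
def S_CLOSE : Prop := ∀ (d : ℕ) (H : Matrix (Fin d) (Fin d) ℤ) (D : ℕ) (ε : ℝ), H.det ≠ 0 → NRU H → 1 ≤ D →
  0 < ε → ∃ p m : ℕ, 1 ≤ p ∧ 1 ≤ m ∧ Nat.Coprime m D ∧ ∀ x : Tor d, ∃ y : Tor d, m • y = 0 ∧ TM (H ^ p) y = y ∧
    (Nat.card {i : Fin p | ε < dist (TM (H ^ (i : ℕ)) x) (TM (H ^ (i : ℕ)) y)} : ℝ) ≤ ε * p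

/-- TRACK -/
def S_TRACK : Prop := ∀ (d : ℕ) (A : Matrix (Fin d) (Fin d) ℤ) (k : ℕ) (h : ℤ[X]) (D : ℕ) (ε : ℝ),
  A.det ≠ 0 → 1 ≤ k → PNRU h → 1 ≤ D → 0 < ε → ∃ p m : ℕ, 1 ≤ p ∧ 1 ≤ m ∧ Nat.Coprime m D ∧
    ∀ x ∈ SS A k h, ∃ y : Tor d, m • y = 0 ∧ TM (A ^ p) y = y ∧
    (Nat.card {i : Fin p | ε < dist (TM (A ^ (i : ℕ)) x) (TM (A ^ (i : ℕ)) y)} : ℝ) ≤ ε * p

/-- DENS -/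
def S_DENS : Prop := ∀ (d : ℕ) (A : Matrix (Fin d) (Fin d) ℤ) (k : ℕ) (h : ℤ[X]) (D : ℕ) (ε : ℝ),
  A.det ≠ 0 → 1 ≤ k → PNRU h → 1 ≤ D → 0 < ε → ∀ ρ : Measure (Tor d), Inv A ρ → ρ (SS A k h)ᶜ = 0 →
  ∃ ν : Measure (Tor d), Inv A ν ∧ ν Set.univ = ρ Set.univ ∧ Near ε ρ ν ∧
    ∃ m : ℕ, 1 ≤ m ∧ Nat.Coprime m D ∧ ν {x | m • x ≠ 0} = 0

/-- ATOM: invariant measures with small atoms near the Dirac measure at 0 -/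
def S_ATOM : Prop := ∀ (d : ℕ) (A : Matrix (Fin d) (Fin d) ℤ) (N : ℕ) (ε : ℝ), 1 ≤ d → A.det ≠ 0 → 1 ≤ N →
  0 < ε → ∃ ν : Measure (Tor d), IsProbabilityMeasure ν ∧ ν.map (TM A) = ν ∧ (ν {x | ε < ‖x‖}).toReal ≤ ε ∧
    ∀ x, (ν {x}).toReal ≤ 1 / N

/-- ATOM1 -/
def S_ATOM1 : Prop := ∀ (d : ℕ) (A : Matrix (Fin d) (Fin d) ℤ) (N : ℕ) (ε : ℝ), 1 ≤ d → A.det ≠ 0 → 1 ≤ N →
  0 < ε → ¬ NRU A → ∃ ν : Measure (Tor d), IsProbabilityMeasure ν ∧ ν.map (TM A) = ν ∧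
    (ν {x | ε < ‖x‖}).toReal ≤ ε ∧ ∀ x, (ν {x}).toReal ≤ 1 / N

/-- ATOM2 -/
def S_ATOM2 : Prop := ∀ (d : ℕ) (A : Matrix (Fin d) (Fin d) ℤ) (N : ℕ) (ε : ℝ), 1 ≤ d → A.det ≠ 0 → 1 ≤ N →
  0 < ε → NRU A → ∃ ν : Measure (Tor d), IsProbabilityMeasure ν ∧ ν.map (TM A) = ν ∧
    (ν {x | ε < ‖x‖}).toReal ≤ ε ∧ ∀ x, (ν {x}).toReal ≤ 1 / N

/-- OPN -/
def S_OPN : Prop := ∀ (d : ℕ) (A : Matrix (Fin d) (Fin d) ℤ) (N : ℕ), 1 ≤ N →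
  IsOpen {μ : PA A | ∀ x, ((μ.1 : Measure (Tor d)) {x}).toReal < 1 / N}

/-- DNO -/
def S_DNO : Prop := ∀ (d : ℕ) (A : Matrix (Fin d) (Fin d) ℤ) (N : ℕ), 1 ≤ d → A.det ≠ 0 → 1 ≤ N →
  Dense {μ : PA A | ∀ x, ((μ.1 : Measure (Tor d)) {x}).toReal < 1 / N}

/-- NOAT: atomless measures are residual -/
def S_NOAT : Prop := ∀ (d : ℕ) (A : Matrix (Fin d) (Fin d) ℤ), 1 ≤ d → A.det ≠ 0 →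
  {μ : PA A | ∀ x, (μ.1 : Measure (Tor d)) {x} = 0} ∈ residual (PA A)

/-- INVS: the restriction of an invariant measure to `SS` is invariant; `SS` is closed. -/
def S_INVS : Prop := ∀ (d : ℕ) (A : Matrix (Fin d) (Fin d) ℤ) (k : ℕ) (h : ℤ[X]),
  IsClosed (SS A k h) ∧ ∀ ρ : Measure (Tor d), Inv A ρ →
    Inv A (ρ.restrict (SS A k h)) ∧ Inv A (ρ.restrict (SS A k h)ᶜ)

/-- RECB: points of order prime to `det B` are recurrent for `B`. -/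
def S_RECB : Prop := ∀ (d : ℕ) (B : Matrix (Fin d) (Fin d) ℤ) (m : ℕ), 1 ≤ m →
  Nat.Coprime m B.det.natAbs → ∃ r : ℕ, 1 ≤ r ∧ ∀ (j : ℕ) (x : Tor d), m • x = 0 → TM (B ^ (r * j)) x = x

/-- BUMP: bump functions at 0. -/
def S_BUMP : Prop := ∀ (d : ℕ) (η ω : ℝ), 1 ≤ d → 0 < η → 0 < ω → ∃ φ : C(Tor d, ℝ),
  (∀ x, 0 ≤ φ x ∧ φ x ≤ 1) ∧ φ 0 = 1 ∧ (∀ x, x ∉ Ba d η → φ x = 0) ∧ ∫ x, φ x ∂(Leb d : Measure (Tor d)) ≤ ω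

/-- MEAG: the equidistributing measures are meagre -/
def S_MEAG : Prop := ∀ (d : ℕ) (A B : Matrix (Fin d) (Fin d) ℤ), 1 ≤ d → A.det ≠ 0 → B.det ≠ 0 →
  {μ : PA A | ¬ Tendsto (fun n : ℕ => push (B ^ n) μ.1) atTop (𝓝 (Leb d))} ∈ residual (PA A)

/-- final -/
def S_FIN : Prop := ∀ (d : ℕ) (A B : Matrix (Fin d) (Fin d) ℤ), 1 ≤ d → A.det ≠ 0 → B.det ≠ 0 →
  GG A B ∈ residual (PA A)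

end Pool.Agent.R284.GE
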